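import Pool.Agent.H32.KRefl

namespace Pool.Agent.Results.MP_958dc4_gt.NotHomeo

open Set Topology

/-- `K` is a class of `T0` spaces containing all sober spaces, closed under homeomorphisms and
adequate: the closed `K`-determined sets with the lower Vietoris topology form a `K`-space. -/
def Adequate (K : ∀ (X : Type) [TopologicalSpace X], Prop) : Prop :=
  (∀ (X : Type) [TopologicalSpace X], K X → T0Space X) ∧
  (∀ (X : Type) [TopologicalSpace X], T0Space X → QuasiSober X → K X) ∧
  (∀ (X Y : Type) [TopologicalSpace X] [TopologicalSpace Y], (X ≃ₜ Y) → K X → K Y) ∧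
  (∀ (X : Type) [TopologicalSpace X], T0Space X →
    @K {A : Set X // IsClosed A ∧ ∀ (Y : Type) [TopologicalSpace Y], K Y →
          ∀ f : X → Y, Continuous f → ∃! y : Y, closure (f '' A) = closure {y}}
      (TopologicalSpace.generateFrom
        {S | ∃ U : Set X, IsOpen U ∧ S = {A | (A.1 ∩ U).Nonempty}}))

/-- `η : X → R` is a `K`-reflection of `X`. -/
def IsReflection (K : ∀ (X : Type) [TopologicalSpace X], Prop) {X R : Type} [TopologicalSpace X]
    [TopologicalSpace R] (η : X → R) : Prop :=
  K R ∧ Continuous η ∧ ∀ (Y : Type) [TopologicalSpace Y], K Y → ∀ f : X → Y, Continuous f →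
    ∃! g : R → Y, Continuous g ∧ g ∘ η = f

open Pool.Agent.H32.KRefl in
theorem result : ∃ K : ∀ (X : Type) [TopologicalSpace X], Prop, Adequate K ∧
    ∃ (X R : ℕ → Type) (_ : ∀ i, TopologicalSpace (X i)) (_ : ∀ i, TopologicalSpace (R i))
      (η : ∀ i, X i → R i), (∀ i, T0Space (X i)) ∧ (∀ i, IsReflection K (η i)) ∧
      ∀ (P : Type) [TopologicalSpace P] (μ : (∀ i, X i) → P), IsReflection K μ →
        IsEmpty (P ≃ₜ ∀ i, R i) := by
  refine ⟨fun Y _ => K Y, ⟨fun _ _ h => h.1, K_sober, K_homeo, fun Z _ _ => K_adequate Z⟩,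
    X, R, inferInstance, inferInstance, eta, fun _ => inferInstance,
    fun i => ⟨K_R i, cont_eta i, refl_R i⟩, fun P _ μ hμ => ⟨fun e => ?_⟩⟩
  let f : (∀ i, X i) → Z := fun x => ⟨fun i => eta i (x i), by simp [eta_ne]⟩
  have hf : Continuous f :=
    (continuous_pi fun i => (cont_eta i).comp (continuous_apply i)).subtype_mk _
  obtain ⟨g, ⟨hg1, hg2⟩, -⟩ := hμ.2.2 Z K_Z f hf
  have h1 : ∀ x, (g (e.symm top)).1 ⤳ (f x).1 := fun x => by
    have h2 : (top : ∀ i, R i) ⤳ e (μ x) := specializes_pi.2 fun j => by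
      rw [specializes_iff_mem_closure, IsUpper.closure_singleton]
      exact le_top' _
    have h3 := (h2.map e.symm.continuous).map (continuous_subtype_val.comp hg1)
    rw [e.symm_apply_apply] at h3
    rw [← hg2]
    exact h3
  have h4 : ∀ j, (g (e.symm top)).1 j = top j := fun j => by
    refine (cases_R _).resolve_right fun ⟨w, hw⟩ => ?_
    obtain ⟨c, hc⟩ := bdd_countable (countable_singleton w)
    classical
    have h5 := specializes_pi.1 (h1 (Function.update (fun i => Classical.arbitrary (W i)) j c)) j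
    rw [specializes_iff_mem_closure, IsUpper.closure_singleton, hw] at h5
    simp only [f, Function.update_self] at h5
    exact absurd h5 (not_le.2 (eta_lt.2 (hc w rfl)))
  have h5 := (g (e.symm top)).2
  simp only [h4, ofPred_true] at h5
  exact infinite_univ h5

end Pool.Agent.Results.MP_958dc4_gt.NotHomeo
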